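import Pool.Agent.X14.LG11

/-!
# Sign and integrality of the normalised partial sums of the series with `(28k+3)` and ratio `-12288`
-/

set_option autoImplicit false

namespace Pool.Agent.Results.MP_14414a_nt.SignIntegrality

open Finset

/-- `a n = (1 / (2n (2n+1) C(2n,n))) Σ_{k<n} (28k+3) (4k)!/(k!)^4 (-12288)^(n-1-k)`. -/
def a (n : ℕ) : ℚ :=
  1 / (2 * (n : ℚ) * (2 * n + 1) * ((2 * n).choose n : ℚ)) *
    ∑ k ∈ range n, (28 * (k : ℚ) + 3) * (((4 * k).factorial : ℚ) / (k.factorial : ℚ) ^ 4) * (-12288) ^ (n - 1 - k)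

/-- For every `n ≥ 2`, the number `(-1)^(n-1) a n` is a positive integer. -/
theorem result (n : ℕ) (hn : 2 ≤ n) : ∃ z : ℤ, 0 < z ∧ (-1) ^ (n - 1) * a n = z := by
  obtain ⟨r, rfl⟩ : ∃ r, n = r + 1 := ⟨n - 1, by omega⟩
  have e : a (r + 1) = Pool.Agent.X14.LG.a28 (r + 1) := by
    unfold a Pool.Agent.X14.LG.a28
    rw [div_mul_eq_mul_div, one_mul]
  rw [e, Nat.add_sub_cancel]
  obtain ⟨z, hz⟩ := Pool.Agent.X14.LG.a28_int r (by omega)
  have hs := Pool.Agent.X14.LG.a28_sign r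
  refine ⟨(-1) ^ r * z, ?_, ?_⟩
  · rw [hz] at hs
    exact_mod_cast hs
  · rw [hz]; push_cast; rfl

end Pool.Agent.Results.MP_14414a_nt.SignIntegrality
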